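import Pool.Agent.helper90.IV.Spec

/-!
# MP_26dbae_co: row BN, number of bases against number of homomorphisms
-/

set_option autoImplicit false

open scoped BigOperators

namespace Pool.Agent.IV

open Pool.Agent.helper23.TH Pool.Agent.KS

noncomputable section

open Classical

theorem BN.eB_le {I : Type} [Fintype I] (T : Tr I) (gh : T.R → Option I) (W : Finset I) :
    eB T gh W ≤ Fintype.card I + Fintype.card T.R := by
  unfold eB
  refine Nat.add_le_add ?_ ?_
  · rw [← Finset.card_univ (α := I)]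
    refine Finset.card_le_card_of_injOn (fun e => e.1) (fun _ _ => Finset.mem_coe.2 (Finset.mem_univ _)) ?_
    intro e he e' he' h
    simp only [Finset.coe_filter, Finset.mem_univ, true_and, Set.mem_setOf_eq] at he he'
    have h1 := he.1
    have h2 := he'.1
    have h0 : e.1 = e'.1 := h
    rw [h0, h2] at h1
    have h3 : e'.2 = e.2 := Option.some.inj h1
    exact Prod.ext h0 h3.symm
  · exact Finset.card_le_univ _

theorem BN (h1 : HLB_stmt) (h2 : BC_stmt) (h3 : EID_stmt) : BN_stmt := by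
  intro I _ T s V _ A d κ gh W hs hd hk hn hlo hhi hgi
  have hnR : (0 : ℝ) < (Fintype.card V : ℝ) := by exact_mod_cast hn
  have hk0 : (0 : ℝ) < κ := lt_of_lt_of_le one_pos hk
  have hH := h1 I T V A d gh hs hd.le hlo hgi.gv
  have hB := h2 I T V A (κ * d) gh W hs (mul_pos hk0 hd) hhi hgi.mem
  have hE := h3 I T s gh W hgi
  have hc : 1 ≤ Fintype.card I := by
    obtain ⟨o, _⟩ := T.root
    exact Fintype.card_pos_iff.2 ⟨o⟩
  have hW : W.card + (Wᶜ).card = Fintype.card I := by
    rw [Finset.card_compl]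
    have := Finset.card_le_univ W
    omega
  set n : ℝ := (Fintype.card V : ℝ) with hndef
  set b : ℝ := (((Hm T A gh).image (bs W)).card : ℝ) with hb
  set H : ℝ := ((Hm T A gh).card : ℝ) with hHdef
  set e : ℕ := eB T gh W with he
  set w : ℕ := T.ew Wᶜ with hw
  have hle : e ≤ Fintype.card I + Fintype.card T.R := BN.eB_le T gh W
  have hH0 : 0 ≤ H := Nat.cast_nonneg _
  -- multiplied by `n ^ e`
  have key : (b * (n ^ (Wᶜ).card * d ^ w)) * n ^ e ≤ (κ ^ e * n ^ w * (n * d ^ (Fintype.card I - 1 + nl T gh))) * n ^ e := by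
    have e1 : (b * (n ^ (Wᶜ).card * d ^ w)) * n ^ e = (b * n ^ e) * (n ^ (Wᶜ).card * d ^ w) := by ring
    rw [e1]
    have hpos : 0 ≤ n ^ (Wᶜ).card * d ^ w := by positivity
    refine le_trans (mul_le_mul_of_nonneg_right hB hpos) (le_of_eq ?_)
    have e2 : n ^ (W.card + nl T gh) * (κ * d) ^ e * (n ^ (Wᶜ).card * d ^ w) =
        κ ^ e * (n ^ (W.card + nl T gh + (Wᶜ).card) * d ^ (e + w)) := by
      rw [mul_pow, pow_add n (W.card + nl T gh), pow_add d e w]
      ring
    have e3 : W.card + nl T gh + (Wᶜ).card = w + 1 + e := by omega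
    have e4 : e + w = Fintype.card I - 1 + nl T gh := by omega
    rw [e2, e3, e4, pow_add n (w + 1) e, pow_succ n w]
    ring
  have key2 : b * (n ^ (Wᶜ).card * d ^ w) ≤ κ ^ e * n ^ w * (n * d ^ (Fintype.card I - 1 + nl T gh)) :=
    le_of_mul_le_mul_right key (pow_pos hnR e)
  refine le_trans key2 ?_
  have hpos : 0 ≤ κ ^ e * n ^ w := by positivity
  refine le_trans (mul_le_mul_of_nonneg_left hH hpos) ?_
  have hkk : κ ^ e ≤ κ ^ (Fintype.card I + Fintype.card T.R) := pow_le_pow_right₀ hk hle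
  refine mul_le_mul_of_nonneg_right ?_ hH0
  exact mul_le_mul_of_nonneg_right hkk (by positivity)

end

end Pool.Agent.IV
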